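import Pool.Agent.Lib.MP_46bc6f_an.Entropy
import Pool.Agent.Lib.MP_46bc6f_an.Phi

namespace Pool.Agent.Results.MP_46bc6f_an.ZeroEntropyDistortion

open Pool.Agent.Lib.MP_46bc6f_an Filter Topology

theorem len_list {G : Type*} [Group G] {S : Set G} {n : ℕ} {g : G} (h : Len S n g) :
    ∃ l : List G, l.length = n ∧ (∀ s ∈ l, s ∈ S ∨ s⁻¹ ∈ S) ∧ l.prod = g := by
  induction h with
  | one => exact ⟨[], rfl, by simp, rfl⟩
  | @gen k g s hs _ ih =>
    obtain ⟨l, h1, h2, h3⟩ := ih
    refine ⟨s :: l, by simp [h1], ?_, by simp [h3]⟩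
    intro t ht
    rcases List.mem_cons.1 ht with rfl | ht
    · exact Or.inl hs
    · exact h2 t ht
  | @inv k g s hs _ ih =>
    obtain ⟨l, h1, h2, h3⟩ := ih
    refine ⟨s⁻¹ :: l, by simp [h1], ?_, by simp [h3]⟩
    intro t ht
    rcases List.mem_cons.1 ht with rfl | ht
    · exact Or.inr (by simpa using hs)
    · exact h2 t ht

theorem len_closure {G : Type*} [Group G] {S : Set G} {n : ℕ} {g : G} (h : Len S n g) :
    g ∈ Subgroup.closure S := by
  induction h with
  | one => exact one_mem _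
  | @gen k g s hs _ ih => exact mul_mem (Subgroup.subset_closure hs) ih
  | @inv k g s hs _ ih => exact mul_mem (inv_mem (Subgroup.subset_closure hs)) ih

theorem wordLength_le {G : Type*} [Group G] {S : Set G} {n : ℕ} {g : G} (h : LenLe S n g) :
    wordLength S g ≤ n := by
  obtain ⟨m, hm, hl⟩ := h
  exact (Nat.sInf_le (len_list hl)).trans hm

theorem real_lenLe {n : ℕ} {g : Equiv.Perm WW} {a : Aut XX XX_subshift} (ha : Real' g a)
    (h : LenLe SS n g) : LenLe TT n a := by
  obtain ⟨m, hm, hl⟩ := h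
  obtain ⟨b, hb, hb2⟩ := real_len hl
  rw [real_unique ha hb]
  exact ⟨m, hm, hb2⟩

theorem real_phi_ne {a : Aut XX XX_subshift} (ha : Real' (phi 0) a) (k k' : ℕ) (hk : k ≠ k') :
    a ^ (11 ^ k) ≠ a ^ (11 ^ k') := by
  intro h
  have h1 := real_pow ha (11 ^ k)
  have h2 := real_pow ha (11 ^ k')
  rw [h] at h1
  have h3 := (h1 (emb false (0, 0)) 0).symm.trans (h2 (emb false (0, 0)) 0)
  rw [phi_zero_pow_false _ _ rfl, phi_zero_pow_false _ _ rfl, gray_zero_pow, gray_zero_pow] at h3
  have h4 := congrFun h3 (3 ^ k)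
  have h5 := congrArg (fun s : Sym => s.fst.2) h4
  simp only [enc, enc1, emb, add_zero] at h5
  rw [(p_five_pow k).1, (p_five_pow k').1, if_pos rfl, if_neg] at h5
  · cases h5
  · intro h6
    apply hk
    have h7 : (3 : ℕ) ^ k = 3 ^ k' := by exact_mod_cast h6
    exact Nat.pow_right_injective (le_refl 2 |>.trans (by norm_num)) h7

theorem log_tendsto : Tendsto (fun n : ℕ => Nat.log 11 n) atTop atTop := by
  rw [tendsto_atTop_atTop]
  intro b
  refine ⟨11 ^ b, fun a ha => ?_⟩
  exact Nat.le_log_of_pow_le (by norm_num) ha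

/-- There is a subshift of zero entropy whose automorphism group contains a distortion element. -/
theorem result : ∃ (A : Type) (_ : Fintype A) (_ : TopologicalSpace A) (_ : DiscreteTopology A)
    (X : Set (ℤ → A)) (hX : IsSubshift X),
    ZeroEntropy X ∧ ∃ g : Aut X hX, IsDistortionElement g := by
  refine ⟨Sym, Fintype.ofFinite _, inferInstance, inferInstance, XX, XX_subshift, XX_zeroEntropy, ?_⟩
  obtain ⟨m, -, hl⟩ := phi_len 0
  obtain ⟨a, ha, hla⟩ := real_len hl
  refine ⟨a, ?_, TT, TT_finite, len_closure hla, ?_⟩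
  · intro n hn h1
    have hmod : ∀ m : ℕ, a ^ m = a ^ (m % n) := by
      intro m
      conv_lhs => rw [← Nat.div_add_mod m n, pow_add, pow_mul, h1, one_pow, one_mul]
    obtain ⟨k, k', hk, he⟩ := Finite.exists_ne_map_eq_of_infinite
      (fun k : ℕ => (⟨11 ^ k % n, Nat.mod_lt _ hn⟩ : Fin n))
    apply real_phi_ne ha k k' hk
    rw [hmod (11 ^ k), hmod (11 ^ k')]
    have : 11 ^ k % n = 11 ^ k' % n := by simpa using he
    rw [this]
  · have hb : ∀ n : ℕ, 0 < n → (wordLength TT (a ^ n) : ℝ) / (n : ℝ) ≤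
        10000 * (5 / 11 : ℝ) ^ (Nat.log 11 n) := by
      intro n hn
      have h1 : n < 11 ^ (Nat.log 11 n + 1) := Nat.lt_pow_succ_log_self (by norm_num) n
      have h2 := wordLength_le (real_lenLe (real_pow ha n) (phi_pow_len _ n h1))
      have h3 : 11 ^ Nat.log 11 n ≤ n := Nat.pow_log_le_self 11 hn.ne'
      have h2' : (wordLength TT (a ^ n) : ℝ) ≤ 10000 * 5 ^ Nat.log 11 n := by
        have : (wordLength TT (a ^ n) : ℝ) ≤ 2000 * 5 ^ (Nat.log 11 n + 1) := by exact_mod_cast h2
        rw [pow_succ] at this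
        linarith
      have h3' : (11 : ℝ) ^ Nat.log 11 n ≤ n := by exact_mod_cast h3
      have hpos : (0 : ℝ) < 11 ^ Nat.log 11 n := by positivity
      have hn' : (0 : ℝ) < n := by exact_mod_cast hn
      rw [div_pow, ← mul_div_assoc]
      exact div_le_div₀ (by positivity) h2' hpos h3'
    have hlim : Tendsto (fun n : ℕ => 10000 * (5 / 11 : ℝ) ^ (Nat.log 11 n)) atTop (𝓝 0) := by
      have h := (tendsto_pow_atTop_nhds_zero_of_lt_one (by norm_num : (0 : ℝ) ≤ 5 / 11)
        (by norm_num)).comp log_tendsto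
      have h2 := h.const_mul 10000
      rw [mul_zero] at h2
      exact h2
    refine squeeze_zero' (Eventually.of_forall fun n => by positivity) ?_ hlim
    filter_upwards [eventually_gt_atTop 0] with n hn
    exact hb n hn

end Pool.Agent.Results.MP_46bc6f_an.ZeroEntropyDistortion
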